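import Pool.Agent.Run7.h744.DD.All
import Pool.Agent.Run7.h744.DD.Zero

/-!
# Density of the data of global strong solutions, Navier-Stokes with Dirichlet conditions

Let `Ω` be a bounded open set in `ℝ³` and `ν > 0`. Near every `u₀ ∈ L²_σ(Ω)`, in the sense of
distributions, there are divergence free test fields whose Navier-Stokes flow (zero boundary
values, no force) is strong for all time; this flow can be made to follow any prescribed global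
strong solution `U` from time `ε` on, uniformly in time.
-/

open MeasureTheory Set
open scoped InnerProductSpace ContDiff

namespace Pool.Agent.Results.MP_fd8964_an.DirichletFlowDensity

open H772R2.NS.Pub

/-- `Ω` bounded and open, `ν > 0`, `U` (with `U' = ∂_t U`, `G = ∇U`, `G' = ∇∂_t U`) a strong
solution on `[0,T]` for every `T`, without force; `u₀ ∈ L²_σ(Ω)`, `φ_i` finitely many smooth fields
with compact support in `Ω`, `ε > 0`. There is a divergence free test field `v₀` with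
`|∫ v₀·φ_i - ∫ u₀·φ_i| ≤ ε` and with a solution `u` with `u(0) = v₀`, strong on `[0,T]` for every
`T`, such that `‖u(t) - U(t)‖_{L²} ≤ ε` and `∫_ε^t ‖∇u - ∇U‖² ≤ ε²` for all `t ≥ ε`. The first part
is the case `U = 0`. -/
theorem result (Ω : Set R3) (hΩ : IsOpen Ω) (hb : Bornology.IsBounded Ω) (ν : ℝ) (hν : 0 < ν)
    (u₀ : L2 Ω R3) (hu₀ : u₀ ∈ L2sigma Ω) (n : ℕ) (φ : Fin n → R3 → R3)
    (hφ : ∀ i, ContDiff ℝ ∞ (φ i) ∧ HasCompactSupport (φ i) ∧ tsupport (φ i) ⊆ Ω)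
    (ε : ℝ) (hε : 0 < ε) :
    (∃ (v₀ : R3 → R3) (u u' : ℝ → L2 Ω R3) (D D' : ℝ → L2 Ω Mat),
      IsTest Ω v₀ ∧ IsClass (u 0) v₀ ∧
      (∀ i, |(∫ x in Ω, ⟪v₀ x, φ i x⟫_ℝ) - ∫ x in Ω, ⟪u₀.fn x, φ i x⟫_ℝ| ≤ ε) ∧
      (∀ T, 0 < T → IsStrong Ω ν T (fun _ => 0) u u' D D') ∧
      ∀ t, ε ≤ t → ‖u t‖ ≤ ε ∧ ∫ s in ε..t, ‖D s‖ ^ 2 ≤ ε ^ 2) ∧
    ∀ (U U' : ℝ → L2 Ω R3) (G G' : ℝ → L2 Ω Mat),
      (∀ T, 0 < T → IsStrong Ω ν T (fun _ => 0) U U' G G') →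
      ∃ (v₀ : R3 → R3) (u u' : ℝ → L2 Ω R3) (D D' : ℝ → L2 Ω Mat),
        IsTest Ω v₀ ∧ IsClass (u 0) v₀ ∧
        (∀ i, |(∫ x in Ω, ⟪v₀ x, φ i x⟫_ℝ) - ∫ x in Ω, ⟪u₀.fn x, φ i x⟫_ℝ| ≤ ε) ∧
        (∀ T, 0 < T → IsStrong Ω ν T (fun _ => 0) u u' D D') ∧
        ∀ t, ε ≤ t → ‖u t - U t‖ ≤ ε ∧ ∫ s in ε..t, ‖D s - G s‖ ^ 2 ≤ ε ^ 2 := by
  have key := Run7.h744.DD.t_all Ω hΩ hb ν hν
  refine ⟨?_, fun U U' G G' hU => ?_⟩
  · obtain ⟨v, u, u', D, D', h1, h2, h3, h4, h5⟩ := key (fun _ => 0) (fun _ => 0) (fun _ => 0)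
      (fun _ => 0) (fun T _ => Run7.h744.DD.strong_zero Ω ν T) u₀ hu₀ n φ hφ ε hε
    refine ⟨v, u, u', D, D', h1, h2, h4, h3, fun t ht => ?_⟩
    have h6 := h5 t ht
    simp only [sub_zero] at h6
    exact h6
  · obtain ⟨v, u, u', D, D', h1, h2, h3, h4, h5⟩ := key U U' G G' hU u₀ hu₀ n φ hφ ε hε
    exact ⟨v, u, u', D, D', h1, h2, h4, h3, h5⟩

end Pool.Agent.Results.MP_fd8964_an.DirichletFlowDensity
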