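import Mathlib
import Pool.Agent.Run7.h407.DD.Brg

/-!
# The Navier-Stokes equations with Dirichlet boundary conditions in any bounded open set, under
doubly exponentially sparse, universal scalar constraints: blow-up at interior points and at
boundary points, failure of `∂ₜu ∈ L^∞(0,T;H)`

The velocity is in a linear space `W` of fields of `H` and the weak formulation is tested with the
fields of `V` which are in `W`. The space `W` may be very large: all fields of `H` which are
orthogonal to smooth fields `g n i`, `n ≥ 0`, `i < 3`. The point `z` of the blow-up may lie in `Ω`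
or on the boundary of `Ω`: it is the vertex of a truncated cone contained in `Ω`.

The fields `g n i` with `n ≥ 3` are universal: they are the fields `G (n + k) i (x - z)` with a
sequence `G m i` which depends only on the number `q > 1` (not on `Ω`, `z` or the datum), is
supported in the ball `|x| ≤ 2^(-q^m)`, and is used from a large index on. So only nine scalar
constraints depend on the datum; all others are supported in an arbitrarily small ball about `z`,
and only `O(log log (1/s))` of them are not supported in the ball `|x - z| < s`.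
-/

namespace Pool.Agent.Results.MP_fd8964_an.DirichletLogLog

open Set Filter Topology MeasureTheory Run7.h407.DD
open scoped ContDiff

/-- Let `1 < q < 5/4`. There are universal modes `P m` and constraint fields `G m i`, which
depend only on `q`, with the following properties. Let `Ω` be a bounded open subset of `ℝ³`, `U` a
smooth divergence-free field with compact support in `Ω`, and `z` a point off the support of `U`,
in `Ω` or on its boundary, such that `Ω` contains a truncated cone
`{z + y : 0 < y₃ ≤ ρ, 3 |y₁| ≤ y₃, 3 |y₂| ≤ y₃}` with vertex `z`.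

(A) Suppose that `U` is not a steady Euler flow. Then for all large `k` there are modes and
constraint fields in `Ω` with `p 0 = U`, universal for `n ≥ 3`, and `A₀ > 0`, such that for every
viscosity `ν > 0` and every amplitude `a ≥ A₀ ν` there is blow-up at `z` before the time `A₀ / a`
from the datum `a U`: no solution with the datum `a U` of the Dirichlet problem, projected on any
admissible space, has `∂ₜu ∈ L^∞(0,S;L²)` on an interval `(0,S)` with `S ≥ A₀ / a`.

(B) Let `0 < r < 3`, `q ≤ 1 + (3 - r) / 8`, `ε > 0` and `N` a bound for the viscosity. Then for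
all large `k` there are a test field `F` in `Ω` supported in the ball `|x - z| ≤ ε` with
`∫ |F|^r ≤ ε`, and modes and constraint fields in `Ω` with `p 0 = U + F`, universal for `n ≥ 3`,
such that for every viscosity `0 < ν ≤ N` there is blow-up at `z` before the time `ε` from the
datum `U + F`. -/
theorem result (q : ℝ) (hq : 1 < q) (hq' : q < 5 / 4) :
    ∃ (P : ℕ → E3 → E3) (G : ℕ → Fin 3 → E3 → E3), IsUniversal q P G ∧
    ∀ Ω : Set E3, IsOpen Ω → (∃ R, ∀ x ∈ Ω, mag x ≤ R) → ∀ (U : E3 → E3) (z : E3),
      IsTest Ω U → VanishesNear z U → (∃ ρ > 0, cone z ρ ⊆ Ω) →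
      (¬ IsSteady U → ∃ k₀ : ℕ, ∀ k ≥ k₀,
        ∃ (p : ℕ → E3 → E3) (g : ℕ → Fin 3 → E3 → E3), IsFamily Ω P G k z U p g ∧
        ∃ A₀ > 0, ∀ ν > 0, ∀ a > 0, A₀ * ν ≤ a → BlowsUp Ω q z p g ν (scale a U) (A₀ / a)) ∧
      (∀ r ε N : ℝ, 0 < r → r < 3 → q ≤ 1 + (3 - r) / 8 → 0 < ε → ∃ k₀ : ℕ, ∀ k ≥ k₀,
        ∃ F : E3 → E3, IsTest Ω F ∧ InBall z ε F ∧ total (fun x => mag (F x) ^ r) ≤ ε ∧
        ∃ (p : ℕ → E3 → E3) (g : ℕ → Fin 3 → E3 → E3), IsFamily Ω P G k z (plus U F) p g ∧
          ∀ ν, 0 < ν → ν ≤ N → BlowsUp Ω q z p g ν (plus U F) ε) :=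
  main q hq hq'

end Pool.Agent.Results.MP_fd8964_an.DirichletLogLog
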