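import Pool.Agent.Run7.h32.Tr.Final

/-!
MP_fd8964_an, Q1 for the dyadic model of the Navier-Stokes equations on a tree (Katz-Pavlović), with
a force.

The nodes are the finite words over `D` letters: the root is `[]`, and the children of the node `j`
are the nodes `i :: j`, so that there are `Dⁿ` nodes in the generation `n`, which stand for the
dyadic cubes of the side `2⁻ⁿ` if `D = 2^d`. The amplitudes `X(t)` solve
`Xⱼ' = 2^(β(|j|-1)) X_{parent of j}² - 2^(β|j|) Xⱼ ∑_{k child of j} X_k - ν 4^|j| Xⱼ + fⱼ`. `H`,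
`V`, `V ∩ H²` and `V'` are the spaces of the families with `∑ xⱼ²`, `∑ 4^|j| xⱼ²`, `∑ 16^|j| xⱼ²` and
`∑ 4^(-|j|) xⱼ²` finite. The model of Katz and Pavlović for the space dimension `d` has `D = 2^d` and
`β = 1 + d/2`, so that `D = 8` and `β = 5/2` for `d = 3`; with `D = 1` the tree is the chain of the
shell model.
-/

set_option autoImplicit false

open Set MeasureTheory

namespace Pool.Agent.Results.MP_fd8964_an.ForcedTree

/-- The vector field of the dyadic model on the tree, with the viscosity `ν` and the scaling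
exponent `β`. -/
noncomputable def field {D : ℕ} (β ν : ℝ) (y : List (Fin D) → ℝ) : List (Fin D) → ℝ
  | [] => -(y [] * ∑ i, y [i]) - ν * y []
  | i :: j => (2 : ℝ) ^ (β * j.length) * y j ^ 2
      - (2 : ℝ) ^ (β * (j.length + 1)) * (y (i :: j) * ∑ k, y (k :: i :: j))
      - ν * 4 ^ (j.length + 1) * y (i :: j)

/-- `Y ∈ L^∞(0, T; H)` for every `T`. -/
def LinftyH {D : ℕ} (Y : List (Fin D) → ℝ → ℝ) : Prop :=
  ∀ T : ℝ, 0 < T → ∃ C : ℝ, ∀ t ∈ Icc 0 T, Summable (fun j => Y j t ^ 2) ∧ ∑' j, Y j t ^ 2 ≤ C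

/-- `Y ∈ L²(0, T; V)` for every `T`. -/
def L2V {D : ℕ} (Y : List (Fin D) → ℝ → ℝ) : Prop :=
  ∀ T : ℝ, 0 < T → (∀ j, IntervalIntegrable (fun t => Y j t ^ 2) volume 0 T) ∧
    Summable fun j : List (Fin D) => (4 : ℝ) ^ j.length * ∫ t in (0 : ℝ)..T, Y j t ^ 2

/-- Admissible data: `x ∈ V ∩ H²`, `f(0) ∈ H`, and `f` has a time derivative `g` which is in
`L²(0, T; V')` for every `T` (so that `f ∈ L²(0, T; V')` too). -/
structure Admissible {D : ℕ} (x : List (Fin D) → ℝ) (f : List (Fin D) → ℝ → ℝ) : Prop where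
  data : Summable fun j : List (Fin D) => (16 : ℝ) ^ j.length * x j ^ 2
  force_zero : Summable fun j => f j 0 ^ 2
  force : ∃ g : List (Fin D) → ℝ → ℝ,
    (∀ j t, 0 ≤ t → f j t = f j 0 + ∫ s in (0 : ℝ)..t, g j s) ∧
    ∀ T : ℝ, 0 < T → (∀ j, MemLp (g j) 2 (volume.restrict (Ioc 0 T))) ∧
      Summable fun j : List (Fin D) => (∫ t in (0 : ℝ)..T, g j t ^ 2) / 4 ^ j.length

/-- `X` solves the equations of all the nodes on `[0, ∞)` and `X(0) = x`. -/
structure Solves {D : ℕ} (β ν : ℝ) (x : List (Fin D) → ℝ) (f X : List (Fin D) → ℝ → ℝ) :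
    Prop where
  init : ∀ j, X j 0 = x j
  eqn : ∀ j t, 0 ≤ t →
    HasDerivWithinAt (X j) (field β ν (fun k => X k t) j + f j t) (Ici 0) t

/-- A Leray-Hopf solution: in `L^∞(0, T; H) ∩ L²(0, T; V)` for every `T`, with the energy
inequality. -/
structure LerayHopf {D : ℕ} (β ν : ℝ) (x : List (Fin D) → ℝ) (f X : List (Fin D) → ℝ → ℝ) :
    Prop where
  solves : Solves β ν x f X
  linftyH : LinftyH X
  l2V : L2V X
  energy : ∀ t : ℝ, 0 ≤ t →
    ∑' j, X j t ^ 2 + 2 * ν * ∑' j : List (Fin D), (4 : ℝ) ^ j.length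
        * ∫ s in (0 : ℝ)..t, X j s ^ 2
      ≤ ∑' j, x j ^ 2 + 2 * ∑' j, ∫ s in (0 : ℝ)..t, f j s * X j s

open Pool.Agent.Run7.h32.Tr in
/-- **Global regularity of the forced dyadic model on the tree.** For every number of children
`D ≥ 1`, all `β < 3`, every viscosity, all real admissible data (no sign, no smallness, no symmetry)
there is a Leray-Hopf solution `X` on `[0, ∞)` with the energy equality and
`∂ₜX ∈ L²(0, T; V) ∩ L^∞(0, T; H)` for every `T`, and it is the only Leray-Hopf solution. -/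
theorem result (D : ℕ) (hD : 0 < D) (β ν : ℝ) (hβ : β < 3) (hν : 0 < ν)
    (x : List (Fin D) → ℝ) (f : List (Fin D) → ℝ → ℝ) (hxf : Admissible x f) :
    ∃ X : List (Fin D) → ℝ → ℝ, LerayHopf β ν x f X ∧
      (∀ t : ℝ, 0 ≤ t →
        ∑' j, X j t ^ 2 + 2 * ν * ∑' j : List (Fin D), (4 : ℝ) ^ j.length
            * ∫ s in (0 : ℝ)..t, X j s ^ 2
          = ∑' j, x j ^ 2 + 2 * ∑' j, ∫ s in (0 : ℝ)..t, f j s * X j s) ∧
      LinftyH (fun j t => field β ν (fun k => X k t) j + f j t) ∧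
      L2V (fun j t => field β ν (fun k => X k t) j + f j t) ∧
      ∀ Z : List (Fin D) → ℝ → ℝ, LerayHopf β ν x f Z →
        ∀ (j : List (Fin D)) (t : ℝ), 0 ≤ t → Z j t = X j t := by
  have hfield : ∀ y : List (Fin D) → ℝ, ∀ j, field β ν y j = trhs β ν y j := by
    intro y j
    cases j with
    | nil =>
      simp only [field, trhs, inp, ch, List.length_nil, Nat.cast_zero, mul_zero, Real.rpow_zero,
        pow_zero]
      ring
    | cons i j =>
      simp only [field, trhs, inp, ch, List.length_cons]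
      push_cast
      ring
  obtain ⟨hx, hf0, g, hfg, hg⟩ := hxf
  have hgi : ∀ T j, 0 ≤ T → IntervalIntegrable (g j) volume 0 T := by
    intro T j hT
    rcases hT.eq_or_lt with h | h
    · rw [← h]
    · rw [intervalIntegrable_iff_integrableOn_Ioc_of_le hT]
      exact ((hg T h).1 j).integrable (by norm_num)
  have hgi2 : ∀ T j, 0 ≤ T → IntervalIntegrable (fun t => g j t ^ 2) volume 0 T := by
    intro T j hT
    rcases hT.eq_or_lt with h | h
    · rw [← h]
    · rw [intervalIntegrable_iff_integrableOn_Ioc_of_le hT]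
      exact ((hg T h).1 j).integrable_sq
  have had : AdmT x f g := by
    refine ⟨hx, hf0, hgi, hgi2, hfg, fun T hT => ?_⟩
    rcases hT.eq_or_lt with h | h
    · rw [← h]
      simp
    · exact (hg T h).2
  obtain ⟨s, hs0, hs, X, hX, hB⟩ := exists_strongT hD hβ hν had
  have hcV : ∀ T : ℝ, 0 < T → ∀ j, ContinuousOn
      (fun t => trhs β ν (fun k => X k t) j + f j t) (Icc 0 T) := fun T hT j =>
    (trhs_cont (fun j => hX.cont j) j).add (had.fcont hT.le j)
  have hx2 : Summable fun j => x j ^ 2 := by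
    obtain ⟨R, hR0, _, _, h2, _⟩ := had.bounds zero_le_one
    exact (tsum_bdT (fun n => sq_nonneg _) h2).1
  have hXS : Solves β ν x f X := ⟨hX.init, fun j t ht => by
    rw [hfield]
    exact hX.ode j t ht⟩
  have hXH : LinftyH X := by
    intro T hT
    obtain ⟨W, hW0, -, h2, -⟩ := hB T hT
    exact ⟨W, fun t ht => tsum_bdT (fun n => sq_nonneg _) (h2 t ht)⟩
  have hl2 : ∀ {Y : List (Fin D) → ℝ → ℝ} {T W : ℝ}, 0 < T →
      (∀ j, ContinuousOn (Y j) (Icc 0 T)) →
      (∀ M : ℕ, ∫ s in (0 : ℝ)..T, ∑ j ∈ tre D M, 4 ^ j.length * Y j s ^ 2 ≤ W) →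
      (∀ j, IntervalIntegrable (fun t => Y j t ^ 2) volume 0 T) ∧
        Summable fun j : List (Fin D) => (4 : ℝ) ^ j.length * ∫ t in (0 : ℝ)..T, Y j t ^ 2 := by
    intro Y T W hT hc h
    refine ⟨fun j => Pool.Agent.Run7.h32.Fo.ii_of ((hc j).pow 2) ⟨le_rfl, hT.le⟩
      ⟨hT.le, le_rfl⟩, ?_⟩
    refine (tsum_bdT (C := W) (fun n => mul_nonneg (by positivity)
      (intervalIntegral.integral_nonneg hT.le fun s _ => sq_nonneg _)) fun M => ?_).1
    rw [← int_sum4T hc ⟨hT.le, le_rfl⟩ M]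
    exact h M
  have hXV : L2V X := by
    intro T hT
    obtain ⟨W, hW0, -, -, h3, -⟩ := hB T hT
    exact hl2 hT (fun j => hX.cont j) h3
  have heq : ∀ t : ℝ, 0 ≤ t →
      ∑' j, X j t ^ 2 + 2 * ν * ∑' j : List (Fin D), (4 : ℝ) ^ j.length
          * ∫ s in (0 : ℝ)..t, X j s ^ 2
        = ∑' j, x j ^ 2 + 2 * ∑' j, ∫ s in (0 : ℝ)..t, f j s * X j s := by
    intro t ht
    obtain ⟨T, hT⟩ : ∃ T, T = t + 1 := ⟨_, rfl⟩
    have hT0 : 0 < T := by linarith
    obtain ⟨W, hW0, h1, h2, h3, -⟩ := hB T hT0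
    obtain ⟨R, hR0, -, -, -, -, -, hΦ, -⟩ := had.bounds hT0.le
    exact energy_eqT hs0 hs hW0 hX (fun j => had.fcont hT0.le j) h1 h2 h3 hΦ ⟨ht, by linarith⟩
  refine ⟨X, ⟨hXS, hXH, hXV, fun t ht => (heq t ht).le⟩, heq, ?_, ?_, ?_⟩
  · intro T hT
    obtain ⟨W, hW0, -, -, -, h4, -⟩ := hB T hT
    refine ⟨W, fun t ht => ?_⟩
    simp only [hfield]
    exact tsum_bdT (fun n => sq_nonneg _) (h4 t ht)
  · intro T hT
    obtain ⟨W, hW0, -, -, -, -, h5⟩ := hB T hT
    simp only [hfield]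
    exact hl2 hT (hcV T hT) h5
  · intro Z hZ j t ht
    rcases ht.eq_or_lt with h | h
    · rw [← h, hZ.solves.init, hX.init]
    · obtain ⟨W, hW0, h1, h2, h3, -⟩ := hB t h
      obtain ⟨R, hR0, -, -, -, -, -, hΦ, -⟩ := had.bounds h.le
      obtain ⟨C, hC⟩ := hZ.linftyH t h
      have hZS : SolT β ν x f Z := ⟨hZ.solves.init, fun j t ht => by
        rw [← hfield]
        exact hZ.solves.eqn j t ht⟩
      exact unique_lhT hD hν hs0 hs h hW0 hX hZS (fun j => had.fcont h.le j) hx2 h1 h3 hΦ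
        (fun r hr => (hC r hr).1) (hZ.l2V t h).2 (fun r hr => hZ.energy r hr.1) j

end Pool.Agent.Results.MP_fd8964_an.ForcedTree
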