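import Pool.Agent.Run7.h219.LS.FinA
import Pool.Agent.Run7.h219.LS.Pub

/-!
The fast fluid at one time counts the interior singular points of a Navier-Stokes flow.

Let `(u, p)` be a smooth solution of the Navier-Stokes equations in `(0, T) × Ω`, of the energy
class and without force in `Ω`, and let `Q ⊂ Ω` be compact. There is no boundary condition and no
condition on the pressure: `Ω` may be any open part of the domain of the flow where the force
vanishes. For all small `r` the number of `r`-separated singular points of `u` in `Q` at the time `T`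
is bounded by the kinetic energy, at the single time `T - r² / ν`, of the fluid in `Ω` which is
faster than the viscous speed `c ν / r`: `card S * ν² r ≤ C ∫_{Ω, |u| > c ν / r} |u|²`.

Since `Ω` may be replaced by any smaller neighbourhood of `Q`, each interior singular point is
accompanied, at every earlier time `T - r² / ν` close to `T`, by an energy `≥ (1 / C) ν² r` of nearby
fluid faster than `c ν / r`.

Consequences, in terms of the weak `L^q(Ω)` norm `M` of the slice: `card S ≤ K(q) (M / ν)^q r^(q - 3)`;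
if `M` is bounded along a sequence of times tending to `T`, then the singular set in `Q` has finite
Hausdorff measure of dimension `3 - q`, and for `q = 3` it has at most `K(3) (M / ν)³` points.
-/

set_option autoImplicit false

open MeasureTheory Set Filter Topology
open H459R3.NS Run7.h219.LPub

namespace Pool.Agent.Results.MP_fd8964_an.InteriorFastFluid

theorem result : ∃ (C c : ℝ) (K : ℝ → ℝ), 0 < C ∧ 0 < c ∧ (∀ q : ℝ, 2 < q → 0 < K q) ∧
    ∀ (ν T : ℝ) (Ω : Set V) (u : ℝ → V → V) (p : ℝ → V → ℝ), 0 < ν → 0 < T →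
      ESol ν T Ω u p → ∀ Q : Set V, IsCompact Q → Q ⊆ Ω →
        (∃ r₀ : ℝ, 0 < r₀ ∧ r₀ ^ 2 ≤ ν * T ∧ ∀ r : ℝ, 0 < r → r < r₀ →
          ∀ S : Finset V, (∀ x ∈ S, x ∈ Q ∧ Sing T u x) →
            (∀ x ∈ S, ∀ y ∈ S, x ≠ y → r ≤ ‖x - y‖) →
              S.card * (ν ^ 2 * r) ≤ C * ∫ x in fast (c * ν / r) Ω (u (T - r ^ 2 / ν)),
                nsq (u (T - r ^ 2 / ν)) x ∧
              ∀ q M : ℝ, 2 < q → 0 ≤ M → Weak q M Ω (u (T - r ^ 2 / ν)) →
                (S.card : ℝ) ≤ K q * (M / ν) ^ q * r ^ (q - 3)) ∧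
        (∀ q M : ℝ, 2 < q → q ≤ 3 → 0 ≤ M → (∃ᶠ t in 𝓝[<] T, Weak q M Ω (u t)) →
          Measure.hausdorffMeasure (3 - q) {x ∈ Q | Sing T u x}
            ≤ ENNReal.ofReal (K q * (M / ν) ^ q)) ∧
        ∀ M : ℝ, 0 ≤ M → (∃ᶠ t in 𝓝[<] T, Weak 3 M Ω (u t)) →
          {x ∈ Q | Sing T u x}.Finite ∧
            ({x ∈ Q | Sing T u x}.ncard : ℝ) ≤ K 3 * (M / ν) ^ 3 :=
  Run7.h219.LS.final_loc

end Pool.Agent.Results.MP_fd8964_an.InteriorFastFluid
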